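import Mathlib
import Pool.Agent.TH551.HA.Tr1

/-!
# X134.TL: the restriction of a squarefree form to a generic one parameter family has no multiple
roots outside `0`
-/

set_option autoImplicit false
set_option linter.unusedSectionVars false
set_option linter.unusedVariables false

namespace Pool.Agent.X134.TL

open Polynomial

section descend

variable {R : Type} [CommRing R] [IsDomain R] [IsGCDMonoid R]

lemma sqf_descend (p : R[X]) (hp : p ≠ 0)
    (h : ∀ q : R[X], 0 < q.natDegree → ¬ q * q ∣ p) :
    Squarefree (p.map (algebraMap R (FractionRing R))) := by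
  classical
  let : NormalizedGCDMonoid R := Nonempty.some inferInstance
  have hinj : Function.Injective (algebraMap R (FractionRing R)) := IsFractionRing.injective _ _
  have hpm : p.map (algebraMap R (FractionRing R)) ≠ 0 := (Polynomial.map_ne_zero_iff hinj).2 hp
  intro x hx
  by_contra hu
  have hx0 : x ≠ 0 := by
    rintro rfl
    rw [mul_zero, zero_dvd_iff] at hx
    exact hpm hx
  obtain ⟨c, c0, hc⟩ := IsLocalization.integerNormalization_spec (nonZeroDivisors R) x
  rw [mem_nonZeroDivisors_iff_ne_zero] at c0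
  set y := IsLocalization.integerNormalization (nonZeroDivisors R) x with hy
  have hc0 : algebraMap R (FractionRing R) c ≠ 0 := by
    rw [Ne, map_eq_zero_iff _ hinj]
    exact c0
  rw [Algebra.smul_def, Polynomial.algebraMap_apply] at hc
  have hy0 : y ≠ 0 := by
    intro h0
    rw [h0, Polynomial.map_zero] at hc
    exact (mul_ne_zero (C_ne_zero.2 hc0) hx0) hc.symm
  have hcont : algebraMap R (FractionRing R) y.content ≠ 0 := by
    rw [Ne, map_eq_zero_iff _ hinj, content_eq_zero_iff]
    exact hy0
  have hq : y.primPart.map (algebraMap R (FractionRing R)) ∣ x := by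
    have h1 : C (algebraMap R (FractionRing R) y.content) *
        y.primPart.map (algebraMap R (FractionRing R)) =
        C (algebraMap R (FractionRing R) c) * x := by
      rw [← hc, ← Polynomial.map_C, ← Polynomial.map_mul, ← y.eq_C_content_mul_primPart]
    have h2 : x = C (algebraMap R (FractionRing R) c)⁻¹ *
        (C (algebraMap R (FractionRing R) y.content) *
        y.primPart.map (algebraMap R (FractionRing R))) := by
      rw [h1, ← mul_assoc, ← C_mul, inv_mul_cancel₀ hc0, C_1, one_mul]
    rw [h2]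
    exact Dvd.dvd.mul_left (dvd_mul_left _ _) _
  have hprim : (y.primPart * y.primPart).IsPrimitive :=
    y.isPrimitive_primPart.mul y.isPrimitive_primPart
  have h1 : y.primPart * y.primPart ∣ p := by
    refine hprim.dvd_of_fraction_map_dvd_fraction_map (K := FractionRing R) ?_
    rw [Polynomial.map_mul]
    exact (mul_dvd_mul hq hq).trans hx
  refine h y.primPart ?_ h1
  have h2 : y.natDegree = x.natDegree := by
    have h3 := congrArg natDegree hc
    rw [natDegree_C_mul hc0, natDegree_map_eq_of_injective hinj] at h3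
    exact h3
  rw [natDegree_primPart, h2]
  by_contra h3
  push Not at h3
  have h4 : x.natDegree = 0 := by omega
  rw [natDegree_eq_zero] at h4
  obtain ⟨a, rfl⟩ := h4
  exact hu (isUnit_C.2 (isUnit_iff_ne_zero.2 (by simpa using hx0)))

lemma exists_res [CharZero R] (p : R[X]) (hp : p ≠ 0)
    (h : ∀ q : R[X], 0 < q.natDegree → ¬ q * q ∣ p) :
    ∃ (D : R) (a b : R[X]), D ≠ 0 ∧ a * p + b * derivative p = C D := by
  classical
  have hinj : Function.Injective (algebraMap R (FractionRing R)) := IsFractionRing.injective _ _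
  have : CharZero (FractionRing R) := charZero_of_injective_algebraMap hinj
  have h1 : (p.map (algebraMap R (FractionRing R))).Separable :=
    PerfectField.separable_iff_squarefree.2 (sqf_descend p hp h)
  obtain ⟨a, b, hab⟩ := h1
  obtain ⟨c, c0, hc⟩ := IsLocalization.integerNormalization_spec (nonZeroDivisors R) a
  obtain ⟨d, d0, hd⟩ := IsLocalization.integerNormalization_spec (nonZeroDivisors R) b
  rw [Algebra.smul_def, Polynomial.algebraMap_apply] at hc hd
  rw [mem_nonZeroDivisors_iff_ne_zero] at c0 d0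
  refine ⟨c * d, C d * IsLocalization.integerNormalization (nonZeroDivisors R) a,
    C c * IsLocalization.integerNormalization (nonZeroDivisors R) b, mul_ne_zero c0 d0, ?_⟩
  apply map_injective (algebraMap R (FractionRing R)) hinj
  rw [Polynomial.map_add, Polynomial.map_mul, Polynomial.map_mul, Polynomial.map_mul,
    Polynomial.map_mul, hc, hd, map_C, map_C, map_C, map_mul, C_mul, ← derivative_map]
  linear_combination (C (algebraMap R (FractionRing R) c) * C (algebraMap R (FractionRing R) d)) *
    hab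

end descend

section mv

variable {N : ℕ}

lemma aeval_scale' {A : Type} [CommRing A] [Algebra ℚ A] (G : MvPolynomial (Fin N) ℚ) (e : ℕ)
    (hG : G.IsHomogeneous e) (z : Fin N → A) (c : A) :
    MvPolynomial.aeval (fun i => c * z i) G = c ^ e * MvPolynomial.aeval z G := by
  rw [MvPolynomial.aeval_def, MvPolynomial.aeval_def, MvPolynomial.eval₂_eq',
    MvPolynomial.eval₂_eq', Finset.mul_sum]
  refine Finset.sum_congr rfl fun α hα => ?_
  have h3 := hG (MvPolynomial.mem_support_iff.1 hα)
  rw [Finsupp.weight_apply, Finsupp.sum_fintype _ _ (by simp)] at h3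
  have h4 : ∑ i, α i = e := by simpa using h3
  simp only [mul_pow, Finset.prod_mul_distrib, Finset.prod_pow_eq_pow_sum]
  rw [h4]
  ring

/-- the substitution `X i ↦ X i * t ^ (w i)` -/
noncomputable def sub1 (w : Fin N → ℕ) : MvPolynomial (Fin N) ℚ →ₐ[ℚ] (MvPolynomial (Fin N) ℚ)[X] :=
  MvPolynomial.aeval (fun i => C (MvPolynomial.X i) * X ^ (w i))

/-- the same, on polynomials in `t` -/
noncomputable def sub2 (w : Fin N → ℕ) :
    (MvPolynomial (Fin N) ℚ)[X] →+* (MvPolynomial (Fin N) ℚ)[X] :=
  Polynomial.eval₂RingHom (sub1 w).toRingHom X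

lemma sub1_monomial (w : Fin N → ℕ) (α : Fin N →₀ ℕ) (c : ℚ) :
    sub1 w (MvPolynomial.monomial α c) =
      C (MvPolynomial.monomial α c) * X ^ (∑ i, α i * w i) := by
  unfold sub1
  rw [MvPolynomial.aeval_monomial, Finsupp.prod_fintype _ _ (fun i => pow_zero _)]
  simp only [mul_pow, Finset.prod_mul_distrib, ← pow_mul]
  rw [Finset.prod_pow_eq_pow_sum]
  have h1 : ∑ i, w i * α i = ∑ i, α i * w i := Finset.sum_congr rfl fun i _ => mul_comm _ _
  rw [h1, ← mul_assoc]
  congr 1
  rw [MvPolynomial.monomial_eq, C_mul, Finsupp.prod_fintype _ _ (fun i => pow_zero _), map_prod]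
  congr 1
  · exact Finset.prod_congr rfl fun i _ => by rw [map_pow]

lemma coeff_sub1 (w : Fin N → ℕ) (r : MvPolynomial (Fin N) ℚ) (α : Fin N →₀ ℕ) (m : ℕ) :
    MvPolynomial.coeff α ((sub1 w r).coeff m) =
      if m = ∑ i, α i * w i then MvPolynomial.coeff α r else 0 := by
  classical
  induction r using MvPolynomial.induction_on' with
  | monomial β c =>
    rw [sub1_monomial, coeff_C_mul_X_pow]
    by_cases h : m = ∑ i, β i * w i
    · rw [if_pos h]
      by_cases h2 : β = α
      · rw [h2] at h
        rw [if_pos h, h2]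
      · rw [MvPolynomial.coeff_monomial, if_neg h2]
        simp
    · rw [if_neg h, MvPolynomial.coeff_zero]
      by_cases h2 : β = α
      · rw [h2] at h
        rw [if_neg h]
      · rw [MvPolynomial.coeff_monomial, if_neg h2]
        simp
  | add p q hp hq =>
    rw [map_add, coeff_add, MvPolynomial.coeff_add, hp, hq, MvPolynomial.coeff_add]
    split_ifs <;> simp

lemma coeff_sub2 (w : Fin N → ℕ) (q : (MvPolynomial (Fin N) ℚ)[X]) (α : Fin N →₀ ℕ) (m : ℕ) :
    MvPolynomial.coeff α ((sub2 w q).coeff (m + ∑ i, α i * w i)) =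
      MvPolynomial.coeff α (q.coeff m) := by
  classical
  induction q using Polynomial.induction_on' with
  | add p q hp hq =>
    rw [map_add, coeff_add, MvPolynomial.coeff_add, hp, hq, coeff_add, MvPolynomial.coeff_add]
  | monomial k r =>
    have h1 : sub2 w (monomial k r) = sub1 w r * X ^ k := by
      unfold sub2
      rw [coe_eval₂RingHom, eval₂_monomial]
      rfl
    rw [h1, coeff_mul_X_pow', coeff_monomial]
    by_cases hk : k = m
    · rw [if_pos hk, if_pos (by omega), coeff_sub1, if_pos (by omega)]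
    · rw [if_neg hk, MvPolynomial.coeff_zero]
      by_cases h2 : k ≤ m + ∑ i, α i * w i
      · rw [if_pos h2, coeff_sub1, if_neg (by omega)]
      · rw [if_neg h2, MvPolynomial.coeff_zero]

lemma sub2_mono (w : Fin N → ℕ) (q : (MvPolynomial (Fin N) ℚ)[X]) (c : ℚ) (a : ℕ)
    (h : sub2 w q = C (MvPolynomial.C c) * X ^ a) : q = C (MvPolynomial.C c) * X ^ a := by
  classical
  ext m α
  rw [← coeff_sub2 w, h, coeff_C_mul_X_pow, coeff_C_mul_X_pow]
  by_cases hα : α = 0
  · subst hα
    simp
  · have h1 : ∀ P : Prop, ∀ _ : Decidable P,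
        MvPolynomial.coeff α (if P then MvPolynomial.C c else 0 : MvPolynomial (Fin N) ℚ) = 0 := by
      intro P hP
      split_ifs
      · rw [MvPolynomial.coeff_C, if_neg (Ne.symm hα)]
      · exact MvPolynomial.coeff_zero _
    rw [h1, h1]

/-- no squares in the generic one parameter family -/
lemma no_sq (n : Fin N → ℕ) (f : MvPolynomial (Fin N) ℚ) (e : ℕ) (hf : f.IsHomogeneous e)
    (hsq : Squarefree f) (P : (MvPolynomial (Fin N) ℚ)[X]) (b : ℕ) (hP : sub1 n f = X ^ b * P)
    (hXP : ¬ X ∣ P) (q : (MvPolynomial (Fin N) ℚ)[X]) (hq : 0 < q.natDegree) : ¬ q * q ∣ P := by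
  classical
  intro hdvd
  set L : ℕ := ∑ i, n i with hLdef
  have hn : ∀ i, n i ≤ L := fun i => Finset.single_le_sum (fun _ _ => Nat.zero_le _)
    (Finset.mem_univ i)
  set ψ := sub2 (fun i => L - n i) with hψ
  have hψX : ψ X = X := by
    rw [hψ]
    unfold sub2
    rw [coe_eval₂RingHom, eval₂_X]
  have hψC : ∀ r, ψ (C r) = sub1 (fun i => L - n i) r := by
    intro r
    rw [hψ]
    unfold sub2
    rw [coe_eval₂RingHom, eval₂_C]
    rfl
  have h1 : ψ (sub1 n f) = (X ^ L) ^ e * C f := by
    have h2 : ψ (sub1 n f) = MvPolynomial.aeval (fun i => ψ (C (MvPolynomial.X i) * X ^ (n i))) f := by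
      unfold sub1
      rw [MvPolynomial.aeval_def, MvPolynomial.aeval_def, MvPolynomial.hom_eval₂]
      congr 1
      exact Subsingleton.elim _ _
    have h3 : ∀ i, ψ (C (MvPolynomial.X i) * X ^ (n i)) = X ^ L * C (MvPolynomial.X i) := by
      intro i
      rw [map_mul, map_pow, hψX, hψC]
      unfold sub1
      rw [MvPolynomial.aeval_X]
      have h4 : L = (L - n i) + n i := by
        have := hn i
        omega
      conv_rhs => rw [h4, pow_add]
      ring
    have h5 : MvPolynomial.aeval
        (fun i => (C (MvPolynomial.X i) : (MvPolynomial (Fin N) ℚ)[X])) f = C f := by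
      have h6 : (MvPolynomial.aeval
          (fun i => (C (MvPolynomial.X i) : (MvPolynomial (Fin N) ℚ)[X]))).toRingHom =
          (Polynomial.C : MvPolynomial (Fin N) ℚ →+* (MvPolynomial (Fin N) ℚ)[X]) := by
        apply MvPolynomial.ringHom_ext
        · intro r
          exact DFunLike.congr_fun (Subsingleton.elim
            (((MvPolynomial.aeval (fun i => (C (MvPolynomial.X i) :
              (MvPolynomial (Fin N) ℚ)[X]))).toRingHom).comp MvPolynomial.C)
            ((Polynomial.C : MvPolynomial (Fin N) ℚ →+* (MvPolynomial (Fin N) ℚ)[X]).comp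
              MvPolynomial.C)) r
        · intro i
          exact MvPolynomial.aeval_X _ _
      exact DFunLike.congr_fun h6 f
    rw [h2, funext h3, aeval_scale' (A := (MvPolynomial (Fin N) ℚ)[X]) f e hf
      (fun i => C (MvPolynomial.X i)) (X ^ L), h5]
  have hf0 : f ≠ 0 := hsq.ne_zero
  have h2 : ψ q * ψ q ∣ X ^ (L * e) * C f := by
    rw [pow_mul, ← h1, hP, map_mul, ← map_mul]
    exact (map_dvd ψ hdvd).mul_left _
  have hrhs : X ^ (L * e) * C f ≠ 0 := mul_ne_zero (pow_ne_zero _ X_ne_zero) (C_ne_zero.2 hf0)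
  have hq0 : ψ q ≠ 0 := by
    intro h0
    rw [h0, mul_zero, zero_dvd_iff] at h2
    exact hrhs h2
  obtain ⟨y, hy, hxy⟩ := exists_eq_pow_rootMultiplicity_mul_and_not_dvd (ψ q) hq0 0
  rw [C_0, sub_zero] at hy hxy
  set a := rootMultiplicity 0 (ψ q) with ha
  have hXp : Prime (X : (MvPolynomial (Fin N) ℚ)[X]) := prime_X
  have hyy : ¬ X ∣ y * y := fun h => (hXp.dvd_or_dvd h).elim hxy hxy
  have h3 : y * y ∣ X ^ (L * e) * C f := by
    refine Dvd.dvd.trans ?_ h2
    rw [hy]
    exact mul_dvd_mul (Dvd.intro_left _ rfl) (Dvd.intro_left _ rfl)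
  obtain ⟨r, hr⟩ := h3
  have h4 : X ^ (L * e) ∣ r := hXp.pow_dvd_of_dvd_mul_left _ hyy ⟨C f, hr.symm⟩
  obtain ⟨r', rfl⟩ := h4
  have h5 : C f = y * y * r' := by
    have h6 : X ^ (L * e) * C f = X ^ (L * e) * (y * y * r') := by
      rw [hr]
      ring
    exact mul_left_cancel₀ (pow_ne_zero _ X_ne_zero) h6
  have hy0 : y ≠ 0 := by
    rintro rfl
    exact hxy (dvd_zero _)
  have hr0 : r' ≠ 0 := by
    rintro rfl
    rw [mul_zero] at h5
    exact hf0 (C_eq_zero.1 h5)
  have hdeg : y.natDegree = 0 := by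
    have h6 := congrArg natDegree h5
    rw [natDegree_C, natDegree_mul (mul_ne_zero hy0 hy0) hr0, natDegree_mul hy0 hy0] at h6
    omega
  obtain ⟨y0, rfl⟩ := natDegree_eq_zero.1 hdeg
  have h6 : y0 * y0 ∣ f := by
    refine ⟨r'.coeff 0, ?_⟩
    have h7 := congrArg (fun p => Polynomial.coeff p 0) h5
    simp only [coeff_C_zero] at h7
    rw [h7, ← C_mul, coeff_C_mul]
  have hu := hsq y0 h6
  obtain ⟨c, hc, hcy⟩ : ∃ c : ℚ, c ≠ 0 ∧ y0 = MvPolynomial.C c := by
    have h7 := MvPolynomial.isUnit_iff_eq_C_of_isReduced.1 hu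
    obtain ⟨c, hc, hcy⟩ := h7
    exact ⟨c, hc.ne_zero, hcy⟩
  have h7 : q = C (MvPolynomial.C c) * X ^ a := by
    refine sub2_mono (fun i => L - n i) q c a ?_
    rw [← hψ, hy, hcy]
    ring
  have ha1 : 1 ≤ a := by
    by_contra h8
    have h9 : a = 0 := by omega
    rw [h7, h9, pow_zero, mul_one, natDegree_C] at hq
    exact lt_irrefl _ hq
  have h8 : X ∣ q := by
    rw [h7]
    exact (dvd_pow_self X (by omega)).mul_left _
  exact hXP ((h8.mul_right q).trans hdvd)

variable {K : Type} [Field K] [Algebra ℚ K]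

/-- the restriction of a squarefree form to a generic one parameter family has no multiple roots
outside `0` -/
theorem sqf_off (n : Fin N → ℕ) (f : MvPolynomial (Fin N) ℚ) (e : ℕ) (hf : f.IsHomogeneous e)
    (hsq : Squarefree f) (z : Fin N → K)
    (hz : ∀ G : MvPolynomial (Fin N) ℚ, (∃ e, G.IsHomogeneous e) → G ≠ 0 →
      MvPolynomial.aeval z G ≠ 0)
    (g : K[X]) (hg : Irreducible g) (hgX : ¬ g ∣ X) :
    ¬ g ^ 2 ∣ MvPolynomial.aeval (fun i => C (z i) * X ^ (n i)) f := by
  classical
  intro hdvd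
  have hf0 : f ≠ 0 := hsq.ne_zero
  have hS0 : sub1 n f ≠ 0 := by
    intro h0
    apply hf0
    ext α
    have h1 := coeff_sub1 n f α (∑ i, α i * n i)
    rw [if_pos rfl, h0, coeff_zero] at h1
    rw [← h1]
  obtain ⟨P, hP, hXP⟩ := exists_eq_pow_rootMultiplicity_mul_and_not_dvd (sub1 n f) hS0 0
  rw [C_0, sub_zero] at hP hXP
  set b := rootMultiplicity 0 (sub1 n f) with hb
  have hP0 : P ≠ 0 := by
    rintro rfl
    exact hXP (dvd_zero _)
  obtain ⟨D, p, q, hD0, hpq⟩ := exists_res P hP0 (no_sq n f e hf hsq P b hP hXP)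
  have hX : ∀ k : ℕ, ¬ g ∣ (X : K[X]) ^ k := fun k hk => hgX (hg.prime.dvd_of_dvd_pow hk)
  have hDz : ∀ c : ℚ, MvPolynomial.aeval (fun i => algebraMap ℚ K c * z i) D = 0 := by
    intro c
    set φ : MvPolynomial (Fin N) ℚ →+* K :=
      (MvPolynomial.aeval (fun i => algebraMap ℚ K c * z i)).toRingHom with hφ
    have h1 : (sub1 n f).map φ = C (algebraMap ℚ K c) ^ e *
        MvPolynomial.aeval (fun i => C (z i) * X ^ (n i)) f := by
      rw [← aeval_scale' f e hf (fun i => C (z i) * X ^ (n i)) (C (algebraMap ℚ K c))]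
      unfold sub1
      rw [← coe_mapRingHom, MvPolynomial.aeval_def, MvPolynomial.aeval_def, MvPolynomial.hom_eval₂]
      congr 1
      · exact Subsingleton.elim _ _
      · funext i
        simp only [coe_mapRingHom, Polynomial.map_mul, Polynomial.map_C,
          Polynomial.map_pow, Polynomial.map_X]
        rw [← mul_assoc, ← C_mul]
        congr 2
        simp [hφ]
    have h2 : g ^ 2 ∣ P.map φ := by
      have h3 : g ^ 2 ∣ X ^ b * P.map φ := by
        have h4 : X ^ b * P.map φ = (sub1 n f).map φ := by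
          rw [hP, Polynomial.map_mul, Polynomial.map_pow, Polynomial.map_X]
        rw [h4, h1]
        exact hdvd.mul_left _
      exact hg.prime.pow_dvd_of_dvd_mul_left 2 (hX b) h3
    have h3 : g ∣ P.map φ := (dvd_pow_self g two_ne_zero).trans h2
    have h4 : g ∣ derivative (P.map φ) := by
      obtain ⟨w, hw⟩ := h2
      rw [hw, derivative_mul, derivative_pow]
      refine dvd_add ?_ ?_
      · refine Dvd.dvd.mul_right ?_ _
        refine Dvd.dvd.mul_right ?_ _
        refine Dvd.dvd.mul_left ?_ _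
        simp
      · exact Dvd.dvd.mul_right (dvd_pow_self g two_ne_zero) _
    have h5 := congrArg (Polynomial.map φ) hpq
    rw [Polynomial.map_add, Polynomial.map_mul, Polynomial.map_mul, ← derivative_map,
      Polynomial.map_C] at h5
    have h6 : g ∣ C (φ D) := by
      rw [← h5]
      exact dvd_add (h3.mul_left _) (h4.mul_left _)
    by_contra hne
    exact hg.not_isUnit (isUnit_of_dvd_unit h6 (isUnit_C.2 (isUnit_iff_ne_zero.2 hne)))
  obtain ⟨k, hk⟩ : ∃ k, MvPolynomial.homogeneousComponent k D ≠ 0 := by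
    by_contra hno
    push Not at hno
    apply hD0
    rw [← MvPolynomial.sum_homogeneousComponent D]
    exact Finset.sum_eq_zero fun k _ => hno k
  exact hz _ ⟨k, MvPolynomial.homogeneousComponent_isHomogeneous k D⟩ hk
    (Pool.Agent.TH551.HA.comp_zero D z hDz k)

end mv

end Pool.Agent.X134.TL
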