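import Mathlib
import Pool.Agent.TH551.HA.Tr3
import Pool.Agent.X134.TL.Sqf

/-!
# X134.TL: level one truncation for germs
-/

set_option autoImplicit false
set_option linter.unusedSectionVars false
set_option linter.unusedVariables false

namespace Pool.Agent.X134.TL

open Filter Topology Pool.Agent.TH932.Germs Pool.Agent.TH551.SU Pool.Agent.TH551.ZP
open Pool.Agent.TH551.SU.CRV Pool.Agent.TH551.ZP.GT Pool.Agent.TH551.HA

section

variable {s : ℕ} {b : Fin s → ℕ} {L : ℕ → ℝ} {r : ℕ} {hL : Tendsto L atTop atTop}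
  {U : Fin (r + 1) → GG} {l : Fin (r + 1) → ℕ} {d : ℕ}

lemma av_gcd_le' (hb : ∀ v, (b v).Prime) (v : Fin s) {ι : Type} (J : Finset ι)
    (hJ : J.Nonempty) (A : ι → ℤ) :
    ∃ j ∈ J, av b (some v) ((J.gcd A : ℤ) : ℚ) ≤ av b (some v) (A j : ℚ) := by
  have := Fact.mk (hb v)
  obtain ⟨j, hj, hmax⟩ := Finset.exists_max_image J (fun j => padicNorm (b v) (A j : ℚ)) hJ
  refine ⟨j, hj, ?_⟩
  simp only [av]
  obtain ⟨c, hc⟩ := exists_gcd_comb J A
  have h1 : ((J.gcd A : ℤ) : ℚ) = ∑ i ∈ J, (c i : ℚ) * (A i : ℚ) := by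
    rw [← hc]
    push_cast
    rfl
  rw [h1]
  have h2 : padicNorm (b v) (∑ i ∈ J, (c i : ℚ) * (A i : ℚ)) ≤ padicNorm (b v) (A j : ℚ) := by
    refine padicNorm.sum_le hJ fun i hi => ?_
    rw [padicNorm.mul]
    have h3 := padicNorm.of_int (p := b v) (c i)
    have h4 : 0 ≤ padicNorm (b v) (A i : ℚ) := padicNorm.nonneg _
    calc padicNorm (b v) (c i : ℚ) * padicNorm (b v) (A i : ℚ) ≤
        1 * padicNorm (b v) (A i : ℚ) := mul_le_mul_of_nonneg_right h3 h4
      _ ≤ _ := by rw [one_mul]; exact hmax i hi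
  exact_mod_cast h2

lemma av_none_int (a : ℤ) : av b none (a : ℚ) = |(a : ℝ)| := by
  simp only [av]
  push_cast
  rfl

/-- the places together -/
lemma placesG (hb : ∀ v, (b v).Prime) (hbi : Function.Injective b) {ι : Type} (J : Finset ι)
    (A : ι → ℤ) (y : ℚ) (E : ℝ) (hE : 0 ≤ E)
    (h : ∀ v, ∀ j ∈ J, av b v (A j : ℚ) ≤ E * av b v y) (i : ι) (hi : i ∈ J) (hA : A i ≠ 0) :
    |(A i : ℝ)| ≤ |((J.gcd A : ℤ) : ℝ)| * (E ^ (s + 1) * ∏ v, av b v y) := by
  have hG0 : J.gcd A ≠ 0 := by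
    intro h0
    rw [Finset.gcd_eq_zero_iff] at h0
    exact hA (h0 i hi)
  have hfin : ∀ v : Fin s, av b (some v) ((J.gcd A : ℤ) : ℚ) ≤ E * av b (some v) y := by
    intro v
    obtain ⟨j, hj, h1⟩ := av_gcd_le' hb v J ⟨i, hi⟩ A
    exact h1.trans (h _ j hj)
  have h1 : |(A i : ℝ)| ≤ E * av b none y := by
    have h2 := h none i hi
    rwa [av_none_int] at h2
  have h0 : 0 ≤ E * av b none y := mul_nonneg hE (av_nonneg hb _ _)
  have h4 := one_le_prod_int hb hbi (J.gcd A) hG0
  rw [Fintype.prod_option, av_none_int] at h4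
  have h5 : ∏ v : Fin s, av b (some v) ((J.gcd A : ℤ) : ℚ) ≤ ∏ v : Fin s, (E * av b (some v) y) :=
    Finset.prod_le_prod (fun _ _ => av_nonneg hb _ _) fun v _ => hfin v
  calc |(A i : ℝ)| ≤ E * av b none y := h1
    _ ≤ (E * av b none y) * (|((J.gcd A : ℤ) : ℝ)| * ∏ v : Fin s, (E * av b (some v) y)) := by
        refine le_mul_of_one_le_right h0 (h4.trans ?_)
        exact mul_le_mul_of_nonneg_left h5 (abs_nonneg _)
    _ = _ := by
      rw [Finset.prod_mul_distrib, Finset.prod_const, Finset.card_univ, Fintype.card_fin,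
        Fintype.prod_option]
      ring

/-- the coefficients of the one parameter family -/
lemma coeff_family {N : ℕ} (f : MvPolynomial (Fin (N + 1)) ℚ) (zg : Fin (N + 1) → GG)
    (n : Fin (N + 1) → ℕ) (k : ℕ) :
    (MvPolynomial.aeval (fun i => Polynomial.C (zg i) * Polynomial.X ^ (n i)) f).coeff k =
      MvPolynomial.aeval zg
        (∑ β ∈ f.support with ∑ i, β i * n i = k,
          MvPolynomial.monomial β (MvPolynomial.coeff β f)) := by
  classical
  rw [MvPolynomial.aeval_def, MvPolynomial.eval₂_eq', Polynomial.finsetSum_coeff, map_sum,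
    Finset.sum_filter]
  refine Finset.sum_congr rfl fun β _ => ?_
  simp only [mul_pow, Finset.prod_mul_distrib, ← pow_mul]
  rw [Finset.prod_pow_eq_pow_sum]
  have h1 : ∑ i, n i * β i = ∑ i, β i * n i := Finset.sum_congr rfl fun i _ => mul_comm _ _
  have h3 : ∏ i, (Polynomial.C (zg i)) ^ (β i) = (Polynomial.C (∏ i, zg i ^ (β i)) :
      Polynomial GG) := by
    rw [map_prod]
    exact Finset.prod_congr rfl fun j _ => by rw [map_pow]
  have h4 : algebraMap ℚ (Polynomial GG) (MvPolynomial.coeff β f) =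
      Polynomial.C (algebraMap ℚ GG (MvPolynomial.coeff β f)) := by
    rw [Polynomial.algebraMap_apply]
  rw [h1, h3, h4, ← mul_assoc, ← Polynomial.C_mul, Polynomial.coeff_C_mul_X_pow,
    MvPolynomial.aeval_monomial, Finsupp.prod_fintype _ _ (fun i => pow_zero _)]
  by_cases h : ∑ i, β i * n i = k
  · rw [if_pos h.symm, if_pos h]
  · rw [if_neg (Ne.symm h), if_neg h]

/-- **level one truncation for germs** -/
theorem trGermF (hnc : NcStmt) (hcs : CSStmt) (hb : ∀ v, (b v).Prime)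
    (hbi : Function.Injective b) (hs : Setup b hL U l d) (hU0 : U 0 = 1) {N : ℕ}
    (f : MvPolynomial (Fin (N + 1)) ℚ) {ef : ℕ} (hf : f.IsHomogeneous ef) (hsq : Squarefree f)
    {p : ℕ} (e : Fin p → ℕ) (he : ∀ j, 1 ≤ e j) (hd : 1 + ef + ∑ j, e j ≤ d)
    (X : Fin p → Polynomial GG) (hX : ∀ j, Lift hL U l 1 (X j)) (x : Fin p → ℕ → ℤ)
    (hx : ∀ j, (X j).eval 1 = gm (fun t => (x j t : ℚ))) (hx0 : ∀ j t, x j t ≠ 0)
    (w : ℕ → ℤ) (hwS : ∀ t, IsSU b (w t : ℚ)) (ιw : Fin (r + 1))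
    (hw : U ιw = gm (fun t => (w t : ℚ))) (z : Fin (N + 1) → ℕ → ℤ) (hz0 : ∀ i t, z i t ≠ 0)
    (ι : Fin (N + 1) → Fin (r + 1))
    (κ : Fin (N + 1) → KK L hL) (hz : ∀ i, gm (fun t => (z i t : ℚ)) = (κ i : GG) * U (ι i))
    (hgen : ∀ G : MvPolynomial (Fin (N + 1)) ℚ, (∃ e, G.IsHomogeneous e) → G ≠ 0 →
      MvPolynomial.aeval (fun i => gm (fun t => (z i t : ℚ))) G ≠ 0)
    (hval : ∀ t, MvPolynomial.aeval (fun i => (z i t : ℚ)) f =
      ((w t * ∏ j, x j t ^ (e j) : ℤ) : ℚ)) (ε : ℝ) (hε : 0 < ε) :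
    ∀ᶠ t in (UU : Filter ℕ), ∀ α ∈ f.support, |((∏ i, z i t ^ (α i) : ℤ) : ℝ)| ≤
      |((f.support.gcd (fun β => ∏ i, z i t ^ (β i)) : ℤ) : ℝ)| *
        (Real.exp (ε * L t) * ∏ j with e j = 1, |(x j t : ℝ)|) := by
  classical
  set zg : Fin (N + 1) → GG := fun i => gm (fun t => (z i t : ℚ)) with hzg
  have h1d : 1 ≤ d := by omega
  have hefd : ef ≤ d := by omega
  -- the lifts of the coordinates
  have hZ : ∀ i, Lift hL U l 1 (Polynomial.C (zg i) * Polynomial.X ^ (l (ι i))) := by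
    intro i
    have h1 : Polynomial.C (zg i) * Polynomial.X ^ (l (ι i)) =
        Polynomial.C (κ i : GG) * (Polynomial.C (U (ι i)) * Polynomial.X ^ (l (ι i))) := by
      rw [← mul_assoc, ← Polynomial.C_mul, ← hz i]
    rw [h1]
    exact (Lift.gen (ι i)).smul (κ i).2
  set F : Polynomial GG :=
    MvPolynomial.aeval (fun i => Polynomial.C (zg i) * Polynomial.X ^ (l (ι i))) f with hF
  have hFL : Lift hL U l ef F := Lift.aeval f hf _ hZ
  have hF1 : F.eval 1 = gm (fun t => MvPolynomial.aeval (fun i => (z i t : ℚ)) f) := by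
    rw [hF, eval_aeval]
    have h1 : (fun i => (Polynomial.C (zg i) * Polynomial.X ^ (l (ι i))).eval 1) =
        fun i => gm (fun t => (z i t : ℚ)) := by
      funext i
      simp [hzg]
    rw [h1]
    exact Main.aeval_gm _ _
  have hE : Lift hL U l 1 (Polynomial.X ^ (l 0)) := by
    have h := Lift.gen (hL := hL) (U := U) (l := l) 0
    rw [hU0, Polynomial.C_1, one_mul] at h
    exact h
  -- the identity
  have hid : (Polynomial.X ^ (l 0)) ^ (1 + ∑ j, e j) * F =
      (Polynomial.X ^ (l 0)) ^ ef *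
        ((Polynomial.C (U ιw) * Polynomial.X ^ (l ιw)) * ∏ j, X j ^ (e j)) := by
    have h1 : Lift hL U l (1 + ef + ∑ j, e j) ((Polynomial.X ^ (l 0)) ^ (1 + ∑ j, e j) * F) := by
      have h2 := (hE.pow (1 + ∑ j, e j)).mul hFL
      have h3 : 1 * (1 + ∑ j, e j) + ef = 1 + ef + ∑ j, e j := by ring
      rwa [h3] at h2
    have h2 : Lift hL U l (1 + ef + ∑ j, e j) ((Polynomial.X ^ (l 0)) ^ ef *
        ((Polynomial.C (U ιw) * Polynomial.X ^ (l ιw)) * ∏ j, X j ^ (e j))) := by
      have h2 := (hE.pow ef).mul ((Lift.gen (hL := hL) (U := U) (l := l) ιw).mul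
        (Lift.prod Finset.univ _ _ fun j _ => (hX j).pow (e j)))
      have h3 : 1 * ef + (1 + ∑ j, 1 * e j) = 1 + ef + ∑ j, e j := by
        simp only [one_mul]
        ring
      rwa [h3] at h2
    refine sub_eq_zero.1 ((h1.sub h2).eq_zero hcs hb hbi hs hd ?_)
    rw [Polynomial.eval_sub, Polynomial.eval_mul, Polynomial.eval_mul, Polynomial.eval_mul,
      Polynomial.eval_prod, hF1]
    simp only [Polynomial.eval_pow, Polynomial.eval_X, one_pow, one_mul, Polynomial.eval_mul,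
      Polynomial.eval_C, mul_one, hx, gm_pow]
    rw [hw, gm_prod', gm_mul, sub_eq_zero]
    congr 1
    funext t
    have h4 := hval t
    push_cast at h4
    exact h4
  have hX0 : ∀ j, X j ≠ 0 := by
    intro j h0
    have h1 := hx j
    rw [h0, Polynomial.eval_zero] at h1
    exact gm_ne_zero.2 (Eventually.of_forall fun t => by
      show ((x j t : ℤ) : ℚ) ≠ 0
      exact_mod_cast hx0 j t) h1.symm
  have hsqF : ∀ g : Polynomial GG, Irreducible g → ¬ g ∣ Polynomial.X → ¬ g ^ 2 ∣ F := by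
    intro g hg hgX
    exact sqf_off (fun i => l (ι i)) f ef hf hsq zg hgen g hg hgX
  set m : ℝ := (s : ℝ) + 1 + ∑ j, (e j : ℝ) with hm
  have hm0 : 0 < m := by positivity
  -- the multiple factors
  have hmult : ∀ᶠ t in (UU : Filter ℕ), ∀ j, 2 ≤ e j →
      ∏ v, av b v (x j t : ℚ) ≤ Real.exp (ε / m * L t) := by
    refine eventually_all.2 fun j => ?_
    by_cases hj : 2 ≤ e j
    swap
    · exact Eventually.of_forall fun t h => absurd h hj
    have h1 : X j ^ 2 ∣ Polynomial.X ^ (l 0 * (1 + ∑ j, e j)) * F := by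
      rw [pow_mul, hid]
      refine Dvd.dvd.mul_left (Dvd.dvd.mul_left ?_ _) _
      exact (pow_dvd_pow _ hj).trans (Finset.dvd_prod_of_mem (fun j => X j ^ (e j))
        (Finset.mem_univ j))
    obtain ⟨c, t0, hc⟩ := mono_of_sq F (X j) hsqF _ (hX0 j) h1
    obtain ⟨κ', hκ', g, hg, h2⟩ := Lift.coeff_unit hb hs h1d (hX j) t0
    have h3 : gm (fun t => (x j t : ℚ)) = κ' * g := by
      rw [← h2, ← hx, hc]
      simp
    filter_upwards [av_small hb hbi hL hκ' hg _ h3 (ε / m) (by positivity)] with t h4 _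
    exact h4
  -- no cancellation
  have hdom : ∀ α ∈ f.support, ∀ v, Dom b L v (∏ i, zg i ^ (α i)) (F.eval 1) := by
    intro α hα v
    set k := ∑ i, α i * l (ι i) with hk
    have h1 := hFL.dom hnc hb hbi hs hefd v k
    have hne : F.coeff k ≠ 0 := by
      rw [hF, coeff_family]
      refine hgen _ ⟨ef, MvPolynomial.IsHomogeneous.sum _ _ _ fun β hβ => ?_⟩ ?_
      · refine MvPolynomial.isHomogeneous_monomial _ ?_
        rw [Finset.mem_filter] at hβ
        have h3 := hf (MvPolynomial.mem_support_iff.1 hβ.1)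
        rw [Finsupp.weight_apply, Finsupp.sum_fintype _ _ (by simp)] at h3
        rw [Finsupp.degree_eq_sum]
        simpa using h3
      · intro h0
        have h7 := congrArg (MvPolynomial.coeff α) h0
        have hmem : α ∈ f.support.filter (fun β => ∑ i, β i * l (ι i) = k) :=
          Finset.mem_filter.2 ⟨hα, hk.symm⟩
        rw [MvPolynomial.coeff_sum, MvPolynomial.coeff_zero,
          Finset.sum_eq_single_of_mem α hmem] at h7
        · rw [MvPolynomial.coeff_monomial, if_pos rfl] at h7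
          exact (MvPolynomial.mem_support_iff.1 hα) h7
        · intro β _ hβ
          rw [MvPolynomial.coeff_monomial, if_neg hβ]
    have hZα : Lift hL U l ef (∏ i, (Polynomial.C (zg i) * Polynomial.X ^ (l (ι i))) ^ (α i)) := by
      have h1 : Lift hL U l (∑ i, 1 * α i)
          (∏ i, (Polynomial.C (zg i) * Polynomial.X ^ (l (ι i))) ^ (α i)) :=
        Lift.prod _ _ _ fun i _ => (hZ i).pow _
      have h2 : ∑ i, 1 * α i = ef := by
        simp only [one_mul]
        have h3 := hf (MvPolynomial.mem_support_iff.1 hα)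
        rw [Finsupp.weight_apply, Finsupp.sum_fintype _ _ (by simp)] at h3
        simpa using h3
      rwa [h2] at h1
    have h2 := Lift.coeff_div hb hs hefd hZα hFL k hne
    have h5 : (∏ i, (Polynomial.C (zg i) * Polynomial.X ^ (l (ι i))) ^ (α i)).coeff k =
        ∏ i, zg i ^ (α i) := by
      simp only [mul_pow, Finset.prod_mul_distrib, ← pow_mul]
      rw [Finset.prod_pow_eq_pow_sum]
      have h1 : ∑ i, l (ι i) * α i = k := by
        rw [hk]
        exact Finset.sum_congr rfl fun i _ => mul_comm _ _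
      have h3 : ∏ i, (Polynomial.C (zg i)) ^ (α i) = (Polynomial.C (∏ i, zg i ^ (α i)) :
          Polynomial GG) := by
        rw [map_prod]
        exact Finset.prod_congr rfl fun j _ => by rw [map_pow]
      rw [h1, h3, Polynomial.coeff_C_mul_X_pow, if_pos rfl]
    rw [h5] at h2
    have h3 : ∏ i, zg i ^ (α i) = ((∏ i, zg i ^ (α i)) / F.coeff k) * F.coeff k := by field_simp
    rw [h3]
    exact Dom.smul hb hbi hL h2 h1
  have hdom' : ∀ᶠ t in (UU : Filter ℕ), ∀ v, ∀ α ∈ f.support,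
      av b v ((∏ i, z i t ^ (α i) : ℤ) : ℚ) ≤
      Real.exp (ε / m * L t) * av b v (MvPolynomial.aeval (fun i => (z i t : ℚ)) f) := by
    refine eventually_all.2 fun v => (Finset.eventually_all _).2 fun α hα => ?_
    have h1 := hdom α hα v
    have h2 : ∏ i, zg i ^ (α i) = gm (fun t => ((∏ i, z i t ^ (α i) : ℤ) : ℚ)) := by
      simp only [hzg, gm_pow]
      rw [gm_prod']
      congr 1
      funext t
      push_cast
      rfl
    rw [hF1, h2] at h1
    rw [dom_gm] at h1
    exact h1 _ (by positivity)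
  filter_upwards [hmult, hdom', L_nonneg hL] with t h1 h2 h3 α hα
  have hA0 : ∏ i, z i t ^ (α i) ≠ 0 := Finset.prod_ne_zero_iff.2 fun i _ => pow_ne_zero _ (hz0 i t)
  have h4 := placesG hb hbi f.support (fun β => ∏ i, z i t ^ (β i)) _ _ (Real.exp_pos _).le h2 α
    hα hA0
  refine h4.trans (mul_le_mul_of_nonneg_left ?_ (abs_nonneg _))
  have h5 : ∏ v, av b v (MvPolynomial.aeval (fun i => (z i t : ℚ)) f) =
      ∏ j, (∏ v, av b v (x j t : ℚ)) ^ (e j) := by
    rw [hval t]
    push_cast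
    simp only [av_mul hb, av_prod hb, av_pow hb]
    rw [Finset.prod_mul_distrib, prod_av_unit hb hbi (hwS t), one_mul, Finset.prod_comm]
    refine Finset.prod_congr rfl fun j _ => ?_
    rw [Finset.prod_pow]
  rw [h5]
  have h0 : ∀ j, 0 ≤ ∏ v, av b v (x j t : ℚ) := fun j =>
    Finset.prod_nonneg fun v _ => av_nonneg hb _ _
  have h6 : ∀ j, (∏ v, av b v (x j t : ℚ)) ^ (e j) ≤
      Real.exp ((e j : ℝ) * (ε / m * L t)) * (if e j = 1 then |(x j t : ℝ)| else 1) := by
    intro j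
    by_cases hj : e j = 1
    · rw [if_pos hj, hj, pow_one]
      have h7 : ∏ v, av b v (x j t : ℚ) ≤ |(x j t : ℝ)| := by
        rw [Fintype.prod_option]
        have h8 : ∏ v : Fin s, av b (some v) (x j t : ℚ) ≤ 1 :=
          Finset.prod_le_one (fun v _ => av_nonneg hb _ _) fun v _ => av_int_le_one hb v _
        rw [av_none_int]
        exact mul_le_of_le_one_right (abs_nonneg _) h8
      refine h7.trans (le_mul_of_one_le_left (abs_nonneg _) ?_)
      exact Real.one_le_exp (by positivity)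
    · rw [if_neg hj, mul_one, Real.exp_nat_mul]
      exact pow_le_pow_left₀ (h0 j) (h1 j (by have := he j; omega)) _
  have h7 : ∏ j, (∏ v, av b v (x j t : ℚ)) ^ (e j) ≤
      Real.exp ((∑ j, (e j : ℝ)) * (ε / m * L t)) * ∏ j with e j = 1, |(x j t : ℝ)| := by
    refine (Finset.prod_le_prod (fun j _ => pow_nonneg (h0 j) _) fun j _ => h6 j).trans ?_
    rw [Finset.prod_mul_distrib, ← Real.exp_sum, ← Finset.sum_mul, Finset.prod_filter]
  refine (mul_le_mul_of_nonneg_left h7 (by positivity)).trans ?_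
  rw [← mul_assoc, ← Real.exp_nat_mul, ← Real.exp_add]
  refine le_of_eq ?_
  congr 2
  rw [hm]
  push_cast
  have : (s : ℝ) + 1 + ∑ j, (e j : ℝ) ≠ 0 := by rw [← hm]; exact hm0.ne'
  field_simp

end

end Pool.Agent.X134.TL
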